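import Mathlib
import Pool.Agent.helper85.PG.Spec3
import Pool.Agent.helper85.PG.Basic

/-!
# Arbitrary subsets of two thin sets of small doubling (Paley graph conjecture at the square root barrier)

THEOREM (`FIN_stmt`, Moebius form `MOB_stmt`): for all `K` and `η > 0` there are `δ > 0`, `p₀`: for all primes
`p > p₀`, all `H₁, H₂ ⊆ ZMod p` with `|H_i + H_i| ≤ K |H_i|`, `|H_i| ≤ p^(1-η)`, ALL subsets `A ⊆ H₁`, `B ⊆ H₂`,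
all `χ ≠ 1` and all `|α a|, |β b| ≤ 1`:
`|∑_(a ∈ A) ∑_(b ∈ B) α a β b χ(a + b)| ≤ p^(-δ) ((p |A| |B|)^(1/2) + |A| |B|)`.

IDEA.  Freiman: `H_1`, `H_2` lie in `O(1)` translates of systems, and a dilate of a thin system lies in
`[-M, M]`, `M = p^(1-η')` (rows ZA ZB ZC PCS FIN).  So let `A ⊆ [-M, M]`, `ζ B ⊆ [-M, M]` (any `ζ ≠ 0`; rows CO3,
CO4).  Gauss sum inversion: `τ S = ∑_t c(t) f(t) g(t)`, `c(t) = χ⁻¹(t) ψ(t s)`, `f, g` the Fourier transforms of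
`A, B`.  `f` varies slowly in the direction `1`, `g` in the direction `ζ` (SMO), so with `h = p^κ` (AV2)
`τ S = h^(-2) ∑_t ∑_(x,y<h) c(t + x + ζ y) f(t + ζ y) g(t + x) + small`: bilinear forms with `h x h` matrices.
Cauchy-Schwarz in the residue classes `y mod m` for all `m ∈ (M, 2M]` (a new `M = h p^(-γ)`; SCM, QRR) bounds
them by the sums `RR(t + ζ y)` over correlations of length `h` with shifts `ζ m z`; Burgess shift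
`x ↦ x + m v` (SHG): only the ONE point `r = (s + x)/m` appears; its collisions are nearly diagonal (NUM: band
limited majorants, divisor bound); moments of `∑_(v<V) χ(r+v) conj χ(r+u+v)` for `u ≠ 0` (PRM, Weil).  So
`RR(s)` is large for at most `p^(1/2+κ/4)/h` points `s` (BDS).

RULES.  Every `X_stmt` is proved in a module `Pool/Agent/<seat>/SPI/X.lean` (import this file, namespace
`Pool.Agent.SPI`, `open Finset`), `theorem X ... : X_stmt`, exact theorem line in the lock note.  Other rows enter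
only as hypotheses.  Auxiliary lemmas prefixed `X_`.  No double quotes, no native_decide, no convert / congr!.
`ψ x` stands for `(ZMod.stdAddChar x : ℂ)`, which is `exp (2 π i x / p)`.
-/

set_option autoImplicit false

namespace Pool.Agent.SPI

open Finset Pool.Agent.helper85.PG
open scoped Pointwise

/-- the Fourier transform `∑_(a ∈ A) w a ψ(t a)` -/
noncomputable def ft {p : ℕ} [NeZero p] (A : Finset (ZMod p)) (w : ZMod p → ℂ) (t : ZMod p) : ℂ :=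
  ∑ a ∈ A, w a * (ZMod.stdAddChar (t * a) : ℂ)

/-- the correlation `|∑_(x<h) χ(s+x) conj χ(s+u+x)|` -/
noncomputable def cr {p : ℕ} (χ : MulChar (ZMod p) ℂ) (h : ℕ) (s u : ZMod p) : ℝ :=
  ‖∑ x ∈ range h, χ (s + (x : ZMod p)) * (starRingEnd ℂ) (χ (s + u + (x : ZMod p)))‖

/-- `(1/M) ∑_(M<m≤2M) m ∑_(|z|≤h/m) |∑_(x<h) χ(s+x) conj χ(s+ζmz+x)|` -/
noncomputable def RR {p : ℕ} (χ : MulChar (ZMod p) ℂ) (ζ : ZMod p) (h M : ℕ) (s : ZMod p) : ℝ :=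
  (∑ m ∈ Ioc M (2 * M), (m : ℝ) * ∑ z ∈ Icc (-((h / m : ℕ) : ℤ)) ((h / m : ℕ) : ℤ),
    cr χ h s (ζ * ((m : ZMod p) * (z : ZMod p)))) / M

/-- the number of `(s, x, m)` with `s ∈ S`, `x < h`, `M < m ≤ 2M`, `s + x = m r` -/
def nu {p : ℕ} (S : Finset (ZMod p)) (h M : ℕ) (r : ZMod p) : ℕ :=
  ∑ m ∈ Ioc M (2 * M), ((S ×ˢ range h).filter fun z => z.1 + (z.2 : ZMod p) = (m : ZMod p) * r).card

/-! ### Tools -/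

/-- GSI (short-medium; Gauss sum inversion).  `τ = gaussSum χ⁻¹ ZMod.stdAddChar`.  For `n ≠ 0` substitute
`t = u / n` (`gaussSum_mulShift` or a direct `Fintype.sum_equiv` with multiplication by `n`, `χ⁻¹ (u / n) =
χ⁻¹ u * χ n`); for `n = 0` both sides are `0` (`MulChar.sum_eq_zero_of_ne_one`, `ZMod.stdAddChar 0 = 1`).
Norm: `‖gaussSum χ ψ‖^2 = p` for `χ ≠ 1` and `ψ` primitive (`ZMod.isPrimitive_stdAddChar`): use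
`gaussSum_mul_gaussSum_eq_card` (or similar) and `conj (χ t) = χ⁻¹ t`, `conj (ψ t) = ψ (-t)`; or expand
`∑_n |∑_t χ⁻¹ t ψ(t n)|^2 = p (p - 1)` (Parseval) and use `|∑_t χ⁻¹ t ψ(t n)| = |τ|` for `n ≠ 0`, `= 0` for
`n = 0`.  (`grep -rl gaussSum Pool/Agent` finds several finished files.) -/
def GSI_stmt : Prop := ∀ (p : ℕ) [Fact p.Prime] (χ : MulChar (ZMod p) ℂ), χ ≠ 1 →
  ∃ τ : ℂ, ‖τ‖ = Real.sqrt p ∧ ∀ n : ZMod p, τ * χ n = ∑ t : ZMod p, χ⁻¹ t * (ZMod.stdAddChar (t * n) : ℂ)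

/-- PLN (short-medium; Plancherel).  `‖z‖^2 = z * conj z`, expand the square, exchange the sums,
`∑_t ψ(t (a - a')) = p` if `a = a'` and `0` otherwise (`AddChar.sum_mulShift` with
`ZMod.isPrimitive_stdAddChar`). -/
def PLN_stmt : Prop := ∀ (p : ℕ) [Fact p.Prime] (A : Finset (ZMod p)) (w : ZMod p → ℂ),
  ∑ t : ZMod p, ‖ft A w t‖ ^ 2 = p * ∑ a ∈ A, ‖w a‖ ^ 2

/-- SMO (short-medium; from PLN: the transform varies slowly in the direction `ζ` if `ζ A` is small).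
`ft A w (t + ζ v) - ft A w t = ft A w' t` with `w' a = w a (ψ(v (ζ a)) - 1)`; PLN for `w'`.
`ζ a = (j : ZMod p)` with `j = (ζ a).valMinAbs`, `|j| ≤ M`, so `ψ(v ζ a) = exp (2 π i v j / p)`
(`ZMod.stdAddChar_coe`, `ZMod.coe_valMinAbs`) and `|ψ(v ζ a) - 1| ≤ 2 π v |j| / p ≤ 2 π v M / p`
(`|exp (i θ) - 1| ≤ |θ|`, e.g. `Real.norm_exp_I_mul_ofReal_sub_one_le`). -/
def SMO_stmt : Prop := ∀ (p : ℕ) [Fact p.Prime] (A : Finset (ZMod p)) (w : ZMod p → ℂ) (ζ : ZMod p) (M v : ℕ),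
  (∀ a, ‖w a‖ ≤ 1) → (∀ a ∈ A, (ζ * a).valMinAbs.natAbs ≤ M) →
    ∑ t : ZMod p, ‖ft A w (t + ζ * v) - ft A w t‖ ^ 2 ≤ p * A.card * (2 * Real.pi * v * M / p) ^ 2

/-- AV2 (short-medium; averaging in two directions).  For all `x, y < h`:
`∑_t c f g (t) = ∑_t c(t+x+ζy) f(t+x+ζy) g(t+x+ζy)`.  Replace `f(t+x+ζy)` by `f(t+ζy)`: the error is at most
`∑_t ‖f(t+ζy+x) - f(t+ζy)‖ ‖g(t+x+ζy)‖ ≤ Ef Ng` (Cauchy-Schwarz, translation invariance); then `g(t+x+ζy)` by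
`g(t+x)`: error `≤ Nf Eg`.  Average over the `h^2` pairs. -/
def AV2_stmt : Prop := ∀ (p : ℕ) [NeZero p] (c f g : ZMod p → ℂ) (ζ : ZMod p) (h : ℕ) (Nf Ng Ef Eg : ℝ),
  0 < h → (∀ t, ‖c t‖ ≤ 1) → 0 ≤ Nf → 0 ≤ Ng → 0 ≤ Ef → 0 ≤ Eg →
  ∑ t : ZMod p, ‖f t‖ ^ 2 ≤ Nf ^ 2 → ∑ t : ZMod p, ‖g t‖ ^ 2 ≤ Ng ^ 2 →
  (∀ x < h, ∑ t : ZMod p, ‖f (t + (x : ZMod p)) - f t‖ ^ 2 ≤ Ef ^ 2) →
  (∀ y < h, ∑ t : ZMod p, ‖g (t + ζ * (y : ZMod p)) - g t‖ ^ 2 ≤ Eg ^ 2) →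
    ‖∑ t : ZMod p, c t * f t * g t‖ ≤
      (∑ t : ZMod p, ‖∑ x ∈ range h, ∑ y ∈ range h,
        c (t + (x : ZMod p) + ζ * (y : ZMod p)) * f (t + ζ * (y : ZMod p)) * g (t + (x : ZMod p))‖) / (h : ℝ) ^ 2
        + Ef * Ng + Nf * Eg

/-- SCM (medium; Cauchy-Schwarz in the residue classes mod `m`).  Let `D ρ` be the set of `y < h` with
`y % m = ρ`.  `|∑_x b x ∑_y c x y a y| ≤ ∑_(ρ<m) (∑_x |b x|^2)^(1/2) (∑_x |∑_(y ∈ D ρ) c x y a y|^2)^(1/2)`, so by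
Cauchy over `ρ` the square is at most `(∑ |b|^2) m ∑_ρ ∑_x |∑_(y ∈ D ρ) c x y a y|^2`.  Expand:
`∑_x |..|^2 = ∑_(y,y' ∈ D ρ) a y conj (a y') G(y,y')`, `G(y,y') = ∑_x c x y conj (c x y')`, `|G(y,y')| =
|G(y',y)|`, and `|a y| |a y'| ≤ (|a y|^2 + |a y'|^2)/2`. -/
def SCM_stmt : Prop := ∀ (h m : ℕ) (c : ℕ → ℕ → ℂ) (a b : ℕ → ℂ), 0 < m →
  ‖∑ x ∈ range h, ∑ y ∈ range h, c x y * a y * b x‖ ^ 2 ≤
    (∑ x ∈ range h, ‖b x‖ ^ 2) * ((m : ℝ) * ∑ y ∈ range h, ‖a y‖ ^ 2 *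
      ∑ y' ∈ (range h).filter (fun y' => y' % m = y % m),
        ‖∑ x ∈ range h, c x y * (starRingEnd ℂ) (c x y')‖)

/-- QRR (medium; from SCM).  For every `m ∈ (M, 2M]` use SCM with `c x y = χ(t+x+ζy) ψ((t+x+ζy) s₀)`.  As
`ψ(..) conj ψ(..) = ψ(ζ (y - y') s₀)` does not depend on `x`, the last factor is
`cr χ h (t + ζ y) (ζ (y' - y))`; `y' - y = m z` with `|z| ≤ h/m` (`|y' - y| < h`), injective in `y'`: the sum over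
`y'` is at most `∑_(z ∈ Icc (-(h/m)) (h/m)) cr χ h (t + ζ y) (ζ (m z))` (terms `≥ 0`).  Average over the `M` values
of `m`. -/
def QRR_stmt : Prop := ∀ (p : ℕ) [Fact p.Prime] (χ : MulChar (ZMod p) ℂ) (ζ s₀ t : ZMod p) (h M : ℕ)
  (a b : ℕ → ℂ), 0 < M →
  ‖∑ x ∈ range h, ∑ y ∈ range h, (χ (t + (x : ZMod p) + ζ * (y : ZMod p)) *
    (ZMod.stdAddChar ((t + (x : ZMod p) + ζ * (y : ZMod p)) * s₀) : ℂ)) * a y * b x‖ ^ 2 ≤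
    (∑ x ∈ range h, ‖b x‖ ^ 2) * ∑ y ∈ range h, ‖a y‖ ^ 2 * RR χ ζ h M (t + ζ * (y : ZMod p))

/-- RRB (short).  `cr ≤ h` (each `|χ| ≤ 1`), the sum over `z` has `2 (h/m) + 1` terms, `m (2 (h/m) + 1) ≤
2 h + 2 M ≤ 3 h`.  Also `0 ≤ RR`. -/
def RRB_stmt : Prop := ∀ (p : ℕ) [Fact p.Prime] (χ : MulChar (ZMod p) ℂ) (ζ s : ZMod p) (h M : ℕ), 0 < M →
  2 * M ≤ h → 0 ≤ RR χ ζ h M s ∧ RR χ ζ h M s ≤ 3 * (h : ℝ) ^ 2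

/-- GBS (medium; from QRR, RRB, PLN; good and bad points).  `a y = ft A α (t+ζy)`, `b x = ft B β (t+x)`.  QRR:
`|form| ≤ ‖b‖ (∑_y |a y|^2 RR(t+ζy))^(1/2) ≤ ‖b‖ (lam h^2 ∑_y |a y|^2)^(1/2) + ‖b‖ (3 h^2 ∑_(y bad) |a y|^2)^(1/2)`,
`y` bad if `lam h^2 < RR(t+ζy)`.  First part: Cauchy over `t` and `∑_t ∑_x |ft B β (t+x)|^2 = h ∑_t |ft B β t|^2 ≤
h p |B|` (PLN): total `lam^(1/2) h (h p |A|)^(1/2) (h p |B|)^(1/2)`.  Second part: `‖b‖ ≤ h^(1/2) |B|`,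
`(3 h^2 ∑_(y bad) |a y|^2)^(1/2) ≤ 3^(1/2) h |A| #{y bad}` (`n^(1/2) ≤ n`), and `∑_t #{y bad} = h #Bad`: total
`3^(1/2) h^(1/2) h |A| |B| h #Bad`. -/
def GBS_stmt : Prop := ∀ (p : ℕ) [Fact p.Prime] (χ : MulChar (ZMod p) ℂ) (ζ s₀ : ZMod p) (h M : ℕ)
  (A B : Finset (ZMod p)) (α β : ZMod p → ℂ) (lam : ℝ), 0 < M → 2 * M ≤ h → 0 ≤ lam →
  (∀ a, ‖α a‖ ≤ 1) → (∀ b, ‖β b‖ ≤ 1) →
    ∑ t : ZMod p, ‖∑ x ∈ range h, ∑ y ∈ range h, (χ (t + (x : ZMod p) + ζ * (y : ZMod p)) *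
      (ZMod.stdAddChar ((t + (x : ZMod p) + ζ * (y : ZMod p)) * s₀) : ℂ)) *
        ft A α (t + ζ * (y : ZMod p)) * ft B β (t + (x : ZMod p))‖ ≤
      Real.sqrt lam * (h : ℝ) ^ 2 * (p * Real.sqrt (A.card * B.card)) +
        2 * (h : ℝ) ^ 2 * Real.sqrt h *
          ((univ.filter fun s : ZMod p => lam * (h : ℝ) ^ 2 < RR χ ζ h M s).card : ℝ) * (A.card * B.card)

/-! ### The bad set -/

/-- SHG (medium; Burgess shift).  For `M < m ≤ 2M`, `u = ζ z`, `F x = χ(s+x) conj χ(s+m u+x)` (`x ∈ ℕ`),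
`|F| ≤ 1`: `|∑_(x<h) F x - ∑_(x<h) F(x + m v)| ≤ 2 m v`, and `F(x + m v) = χ(r+v) conj χ(r+u+v)` with
`r = (s+x)/m` (`m ≠ 0` in `ZMod p`, `|χ m| = 1`).  Average over `v < V`:
`cr χ h s (m u) ≤ (1/V) ∑_(x<h) cr χ V ((s+x)/m) u + 2 m V`.  The error terms: `m (2 (h/m) + 1) 4 M V ≤ 12 h M V`
(average over `m`).  The terms `z = 0`: `cr χ V r 0 ≤ V`, total `≤ 2 M h`.  The others: `m / M ≤ 2`, `|z| ≤ h/m ≤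
h/M`, and `∑_(s ∈ S) ∑_m ∑_(x<h) cr χ V ((s+x)/m) u = ∑_r nu(r) cr χ V r u` (`r` is the only solution of
`s + x = m r`). -/
def SHG_stmt : Prop := ∀ (p : ℕ) [Fact p.Prime] (χ : MulChar (ZMod p) ℂ) (ζ : ZMod p) (h M V : ℕ)
  (S : Finset (ZMod p)), 0 < M → 2 * M ≤ h → h < p → 0 < V →
    ∑ s ∈ S, RR χ ζ h M s ≤
      2 / (V : ℝ) * ∑ z ∈ (Icc (-((h / M : ℕ) : ℤ)) ((h / M : ℕ) : ℤ)).erase 0,
        ∑ r : ZMod p, (nu S h M r : ℝ) * cr χ V r (ζ * (z : ZMod p)) +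
      14 * S.card * h * M * V

/-- PRM (medium; moments of the correlations, ANY shift `u ≠ 0`).  (1) If `T ⊆ ZMod p` has `a ≠ b + u` for all
`a, b ∈ T`: `∑_r |∑_(a ∈ T) χ(a+r) conj χ(a+u+r)|^(2k) ≤ k^(2k) |T|^k p + |T|^(2k) 4 k p^(1/2)`: copy `MOM_gen`
in `Pool/Agent/helper21/PY2/MOM.lean` with `u` instead of `1` (uses `ZZ_bound`, `card_degenerate` of
`Pool/Agent/helper82/Weil/M.lean`).  (2) Three colours: `x ∈ ZMod p` gets the colour `2` if `(x/u).val = p-1` and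
`(x/u).val % 2` otherwise; `x` and `x + u` have different colours.  Split `{(v : ZMod p) : v < V}` by colours
into `T₁, T₂, T₃`, `|a+b+c|^(2k) ≤ 3^(2k-1) (|a|^(2k) + |b|^(2k) + |c|^(2k))`, `|T_i| ≤ V`. -/
def PRM_stmt : Prop := ∀ (p : ℕ) [Fact p.Prime] (χ : MulChar (ZMod p) ℂ), χ ≠ 1 → ∀ (k V : ℕ) (u : ZMod p),
  0 < k → V < p → u ≠ 0 →
    ∑ r : ZMod p, cr χ V r u ^ (2 * k) ≤
      3 ^ (2 * k) * ((k : ℝ) ^ (2 * k) * (V : ℝ) ^ k * p + (V : ℝ) ^ (2 * k) * (4 * k * Real.sqrt p))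

/-- NUM (medium; collisions of the points `(s+x)/m`).  Same method as `COL` (`Pool/Agent/helper72/PY2/COL.lean`;
use `Pool.Agent.helper95.PY2.Spec` and its proved rows DIL, WSUM, WTOT, LOW and the expansion in PAR; or
`Pool.Agent.helper95.PY2.All`).  `J = {s.val / h : s ∈ S}`, `|J| = |S|`, `R = ⌊p/(12h)⌋ ≥ p/(24h)`.  If
`s + x = y` with `x < h` and `j = s.val / h` then `y - j h` is the class of an integer in `[0, 2h)`, so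
`wf R (y - j h) ≥ 1` (LOW, `6 R 2h ≤ p`).  Hence `nu(r) ≤ ∑_(m ∈ (M,2M]) W(m r)`, `W y = ∑_(j ∈ J) wf R (y - j h) =
∑_(|f|<R) a_f ps(f y)`, `a_f = 4/R² (R - |f|) ∑_(j ∈ J) ps(-f j h)`, `a_0 = 4 |J| / R`.  DIL with `L = 2M` and the
coefficients `a_f` for `m > M`, `0` for `m ≤ M` (`2 · 2M · R ≤ p/3 < p`):
`∑_r nu² ≤ p (M² |a_0|² + T M ∑_f |a_f|²)`; `p M² |a_0|² ≤ 16 · 24² (M |J| h)²/p`; Parseval
`p ∑ |a_f|² = ∑_y W(y)² ≤ 1000 ∑_y W(y)` (WSUM with `L = N = h`), `∑_y W(y) = |J| 4p/R ≤ 96 h |J|` (WTOT). -/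
def NUM_stmt : Prop := ∀ (p : ℕ) [Fact p.Prime] (S : Finset (ZMod p)) (h M T : ℕ), 0 < M → 2 * M ≤ h →
  24 * h ≤ p → (∀ n : ℕ, 1 ≤ n → n ≤ p → n.divisors.card ≤ T) →
  (∀ s ∈ S, ∀ s' ∈ S, s.val / h = s'.val / h → s = s') →
    ∑ r : ZMod p, (nu S h M r : ℝ) ^ 2 ≤
      10 ^ 4 * ((M : ℝ) * S.card * h) ^ 2 / p + 10 ^ 5 * T * (M * S.card * h)

/-- HOL (finished: this is `Pool.Agent.PY2.HOL_stmt`; only used as a hypothesis). -/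
def HOL_stmt : Prop := ∀ (p : ℕ) [Fact p.Prime] (f g : ZMod p → ℝ) (k : ℕ), 0 < k → (∀ x, 0 ≤ f x) →
  (∀ x, 0 ≤ g x) →
  (∑ x, f x * g x) ^ (2 * k) ≤ (∑ x, f x) ^ (2 * k - 2) * (∑ x, f x ^ 2) * ∑ x, g x ^ (2 * k)

/-- DIV (finished: this is `Pool.Agent.PY2.DIV_stmt`; only used as a hypothesis). -/
def DIV_stmt : Prop := ∀ η : ℝ, 0 < η → ∃ C : ℝ, 0 < C ∧ ∀ n : ℕ, 1 ≤ n → (n.divisors.card : ℝ) ≤ C * (n : ℝ) ^ η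

/-- CEL (short; one point in each cell).  Choose for every cell `{s : s.val / h = j}` containing a point of `D` one
such point; a cell has at most `h` points. -/
def CEL_stmt : Prop := ∀ (p : ℕ) [NeZero p] (D : Finset (ZMod p)) (h : ℕ), 0 < h →
  ∃ S ⊆ D, D.card ≤ h * S.card ∧ ∀ s ∈ S, ∀ s' ∈ S, s.val / h = s'.val / h → s = s'

/-- NUS (short).  `∑_r nu(r) = |S| h M`: for given `(s, x, m)` exactly one `r` (`m ≠ 0` in `ZMod p`). -/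
def NUS_stmt : Prop := ∀ (p : ℕ) [Fact p.Prime] (S : Finset (ZMod p)) (h M : ℕ), 2 * M < p →
  ∑ r : ZMod p, (nu S h M r : ℝ) = S.card * h * M

/-- BDS (medium-long, numeric; from SHG PRM NUM HOL DIV CEL NUS; the bad set).  `γ = κ/16`, `V = ⌊p^(γ/2)⌋`,
`k ≥ 2/γ`: `V^k ≥ p^(1/2)` for large `p`, so PRM gives `∑_r cr χ V r u^(2k) ≤ C_k V^(2k) p^(1/2)` for `u = ζ z`,
`z ≠ 0`, `|z| ≤ h/M < p`.  DIV with `κ/32`: `T ≤ C p^(κ/32)`.  Let `D` be the set in question, suppose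
`|D| h > p^(1/2+κ/4)`; `S` from CEL: `|S| h² > p^(1/2+κ/4)`, so `M |S| h ≥ (1/2) p^(-γ) |S| h² ≥
(1/2) p^(1/2+κ/4-γ)` (`M ≥ p^(κ-γ)/2 ≥ p^(-γ) h/2`).  HOL, NUS, NUM:
`(∑_r nu cr)^(2k) ≤ (M |S| h V)^(2k) C_k p^(1/2) (10^4/p + 10^5 T/(M |S| h)) ≤ (M |S| h V)^(2k) C' p^(-κ/8)`
(`-κ/4 + γ + κ/32 ≤ -κ/8`).  There are `≤ 2 h/M` values of `z`.  SHG:
`p^(-δ) h² |S| ≤ (2/V) (2h/M) M |S| h V C'' p^(-κ/(16k)) + 14 |S| h M V`, and `M V ≤ p^(κ-γ/2) ≤ 2 h p^(-γ/2)`: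
`p^(-δ) ≤ 4 C'' p^(-κ/(16k)) + 28 p^(-γ/2)`, false for `δ = min (κ/(16k)) (γ/2) / 2` and large `p`.  (The floors
`h, M` satisfy `2 M ≤ h`, `24 h ≤ p` for large `p`.) -/
def BDS_stmt : Prop := ∀ κ : ℝ, 0 < κ → κ ≤ 1 / 4 → ∃ (γ δ : ℝ) (p₀ : ℕ), 0 < γ ∧ γ < κ ∧ 0 < δ ∧
  ∀ (p : ℕ) [Fact p.Prime], p₀ < p → ∀ (χ : MulChar (ZMod p) ℂ) (ζ : ZMod p) (h M : ℕ), χ ≠ 1 → ζ ≠ 0 →
    h = ⌊(p : ℝ) ^ κ⌋₊ → M = ⌊(p : ℝ) ^ (κ - γ)⌋₊ → 0 < M ∧ 2 * M ≤ h ∧ h < p ∧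
    ((univ.filter fun s : ZMod p => (p : ℝ) ^ (-δ) * (h : ℝ) ^ 2 < RR χ ζ h M s).card : ℝ) * h ≤
      (p : ℝ) ^ (1 / 2 + κ / 4)

/-! ### The core inequality -/

/-- CO3 (medium; from GSI PLN SMO AV2 GBS BDS).  We may assume `η ≤ 1`; `κ = η/4`, BDS for `χ⁻¹` (`≠ 1`) gives
`γ, δ₁`; `h, M'` the floors there (here `M'` for the `M` of BDS).  GSI for `n = a + b + s`:
`τ S = ∑_t c t f t g t`, `c t = χ⁻¹ t ψ(t s)`, `f = ft A α`, `g = ft B β`.  AV2 with the direction `ζ` for `g`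
(SMO), the direction `1` for `f` (SMO with `ζ = 1`): `Nf = (p |A|)^(1/2)`, `Ng = (p |B|)^(1/2)` (PLN),
`Ef = (p |A|)^(1/2) 2 π h M/p`, `Eg = (p |B|)^(1/2) 2 π h M/p`.  GBS with `lam = p^(-δ₁)` for the main term.  With
`‖τ‖ = p^(1/2)`, `M ≤ p^(1-η)`, `h ≤ p^κ`:
`‖S‖ ≤ p^(-δ₁/2) (p |A| |B|)^(1/2) + 2 p^(-1/2) h^(1/2) #Bad |A| |B| + 4 π p^(κ-η) (p |A| |B|)^(1/2)`, and
`h^(1/2) #Bad ≤ h^(-1/2) p^(1/2+κ/4) ≤ 2 p^(1/2-κ/4)`.  `δ = min (δ₁/2) (κ/4) / 2`, large `p`. -/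
def CO3_stmt : Prop := ∀ η : ℝ, 0 < η → ∃ (δ : ℝ) (p₀ : ℕ), 0 < δ ∧ ∀ (p : ℕ) [Fact p.Prime], p₀ < p →
  ∀ (A B : Finset (ZMod p)) (s ζ : ZMod p) (M : ℕ) (χ : MulChar (ZMod p) ℂ) (α β : ZMod p → ℂ),
    ζ ≠ 0 → (M : ℝ) ≤ (p : ℝ) ^ (1 - η) → (∀ a ∈ A, a.valMinAbs.natAbs ≤ M) →
    (∀ b ∈ B, (ζ * b).valMinAbs.natAbs ≤ M) → χ ≠ 1 → (∀ a, ‖α a‖ ≤ 1) → (∀ b, ‖β b‖ ≤ 1) →
      ‖∑ a ∈ A, ∑ b ∈ B, α a * β b * χ (a + b + s)‖ ≤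
        (p : ℝ) ^ (-δ) * (Real.sqrt (p * (A.card * B.card)) + A.card * B.card)

/-- CO4 (short; from CO3, dilation).  Same `δ, p₀`.  Apply CO3 to `A' = A.image (ζ₁ * ·)`, `B' = B.image (ζ₁ * ·)`,
`s' = ζ₁ s`, `ζ = ζ₂ / ζ₁`, `α' x = α (ζ₁⁻¹ x)`, `β' x = β (ζ₁⁻¹ x)`;
`χ (ζ₁ a + ζ₁ b + ζ₁ s) = χ ζ₁ * χ (a + b + s)`, `‖χ ζ₁‖ = 1`. -/
def CO4_stmt : Prop := ∀ η : ℝ, 0 < η → ∃ (δ : ℝ) (p₀ : ℕ), 0 < δ ∧ ∀ (p : ℕ) [Fact p.Prime], p₀ < p →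
  ∀ (A B : Finset (ZMod p)) (s ζ₁ ζ₂ : ZMod p) (M : ℕ) (χ : MulChar (ZMod p) ℂ) (α β : ZMod p → ℂ),
    ζ₁ ≠ 0 → ζ₂ ≠ 0 → (M : ℝ) ≤ (p : ℝ) ^ (1 - η) → (∀ a ∈ A, (ζ₁ * a).valMinAbs.natAbs ≤ M) →
    (∀ b ∈ B, (ζ₂ * b).valMinAbs.natAbs ≤ M) → χ ≠ 1 → (∀ a, ‖α a‖ ≤ 1) → (∀ b, ‖β b‖ ≤ 1) →
      ‖∑ a ∈ A, ∑ b ∈ B, α a * β b * χ (a + b + s)‖ ≤
        (p : ℝ) ^ (-δ) * (Real.sqrt (p * (A.card * B.card)) + A.card * B.card)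

/-! ### Sets of small doubling -/

/-- ZA (medium; from PLN; a `k`-fold sumset of size at most `p/2` has a large Fourier coefficient).
`r x = #{f : Fin k → V : ∑ f = x}` (use `Fintype.piFinset fun _ => V`), `∑_x r x = |V|^k`, `r` supported in `U`:
`∑ r^2 ≥ |V|^(2k) / |U| ≥ 2 |V|^(2k) / p`.  Fourier: `∑_x r x ψ(t x) = (∑_(y ∈ V) ψ(t y))^k`
(`Finset.prod_univ_sum`), and Plancherel (PLN with `A = univ`, `w = r`): `p ∑ r^2 = ∑_t ‖V^(t)‖^(2k)`.  The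
term `t = 0` is `|V|^(2k)`, so `∑_(t ≠ 0) ‖V^(t)‖^(2k) ≥ |V|^(2k)`; there are fewer than `p` terms. -/
def ZA_stmt : Prop := ∀ (p : ℕ) [Fact p.Prime] (V U : Finset (ZMod p)) (k : ℕ), 0 < k → V.Nonempty →
  (∀ f : Fin k → ZMod p, (∀ i, f i ∈ V) → ∑ i, f i ∈ U) → 2 * U.card ≤ p →
    ∃ t : ZMod p, t ≠ 0 ∧
      (V.card : ℝ) ^ (2 * k) ≤ p * ‖∑ y ∈ V, (ZMod.stdAddChar (t * y) : ℂ)‖ ^ (2 * k)

/-- ZB (medium; from PKC; a large Fourier coefficient of a system makes a dilate small).  Third part of PKC: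
`#P 2 ≤ 5^d #P 1`.  `V = P 2` is symmetric, so `V^(t) = ∑_(y ∈ V) ψ(t y)` is real, `= ∑ Re ψ(t y)`.  `ζ = 2 t ≠ 0`
(`p ≠ 2`).  `Re ψ(2 t y) = 2 (Re ψ(t y))^2 - 1`, so by Cauchy-Schwarz
`∑_(y ∈ V) Re ψ(ζ y) ≥ 2 V^(t)^2 / |V| - |V| ≥ (1 - 4 τ) |V|`, i.e. `∑_(y ∈ V) (1 - Re ψ(ζ y)) ≤ 4 τ |V|`.
For `y₀ ∈ P 1` and every `y ∈ P 1` (so `y, y + y₀ ∈ V`; `P 1 ⊆ P 2`): with `a = ψ(ζ (y+y₀))`, `b = ψ(ζ y)`,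
`ψ(ζ y₀) = a conj b`, `|1 - a conj b|^2 ≤ 2 |1 - a|^2 + 2 |1 - b|^2` and `|1 - a|^2 = 2 (1 - Re a)`:
`1 - Re ψ(ζ y₀) ≤ 2 (1 - Re a) + 2 (1 - Re b)`.  Sum over `y ∈ P 1` (both sums over subsets of `V`, the terms
are `≥ 0`): `|P 1| (1 - Re ψ(ζ y₀)) ≤ 16 τ |P 2| ≤ 16 τ 5^d |P 1|`.  Finally with
`v = (ζ y₀).valMinAbs`, `|v/p| ≤ 1/2`: `1 - Re ψ(ζ y₀) = 1 - cos (2 π v / p) = 2 sin^2 (π v / p) ≥ 8 (v/p)^2`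
(Jordan: `sin x ≥ 2 x / π` on `[0, π/2]`, `Real.mul_le_sin`), so `(v/p)^2 ≤ 2 * 5^d τ`. -/
def ZB_stmt : Prop := ∀ (p : ℕ) [Fact p.Prime] (d : ℕ) (P : ℝ → Finset (ZMod p)) (τ : ℝ) (t : ZMod p),
  2 < p → IsSys p d P → 0 ≤ τ → τ ≤ 1 → t ≠ 0 →
  (1 - τ) * ((P 2).card : ℝ) ≤ ‖∑ y ∈ P 2, (ZMod.stdAddChar (t * y) : ℂ)‖ →
    ∃ ζ : ZMod p, ζ ≠ 0 ∧ ∀ y ∈ P 1,
      ((ζ * y).valMinAbs.natAbs : ℝ) ≤ p * Real.sqrt (2 * 5 ^ d * τ)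

/-- ZC (medium; from ZA ZB PKC; a system of small size lies in a dilate of a short interval).  We may
assume `η ≤ 1`.  `k = ⌊p^(η/(2(d+1)))⌋ ≥ 1`, `V = P 2`, `U = P (2 k)` (sums of `k` elements of `P 2` are in
`P (2 k)`: induction with `IsSys.add_mem`).  PKC: `|U| ≤ (1 + 4 k)^d |P 1| ≤ (5 k)^d C p^(1-η) ≤
5^d C p^(1-η/2) ≤ p / 2` for large `p`.  ZA: `|V| ≤ p^(1/(2k)) ‖V^(t)‖`, and `p^(-1/(2k)) =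
exp (- log p / (2 k)) ≥ 1 - log p / (2 k)`: `τ = log p / (2 k) ≤ 1`.  ZB: the bound is
`p (5^d log p / k)^(1/2) ≤ p^(1-η')` with `η' = η / (8 (d+1))` for large `p` (`k ≥ p^(η/(2(d+1)))/2`). -/
def ZC_stmt : Prop := ∀ (d : ℕ) (C η : ℝ), 0 < η → ∃ (η' : ℝ) (p₀ : ℕ), 0 < η' ∧ ∀ (p : ℕ) [Fact p.Prime],
  p₀ < p → ∀ P : ℝ → Finset (ZMod p), IsSys p d P → ((P 1).card : ℝ) ≤ C * (p : ℝ) ^ (1 - η) →
    ∃ ζ : ZMod p, ζ ≠ 0 ∧ ∀ y ∈ P 1, ((ζ * y).valMinAbs.natAbs : ℝ) ≤ (p : ℝ) ^ (1 - η')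

/-- PCS (medium; pieces).  Choose `f a ∈ F`, `a - f a ∈ P` for `a ∈ A`, `g b ∈ G`, `b - g b ∈ Q` for `b ∈ B`.
`∑_(a,b) = ∑_(u ∈ F) ∑_(v ∈ G) ∑_(a ∈ A, f a = u) ∑_(b ∈ B, g b = v)`; substitute `a = x + u`, `b = y + v`:
`A' = {a - u : a ∈ A, f a = u} ⊆ P`, `|A'| ≤ |A|`, `α' x = α (x + u)`, and the same for `B`. -/
def PCS_stmt : Prop := ∀ (p : ℕ) [Fact p.Prime] (A B F G P Q : Finset (ZMod p)) (χ : MulChar (ZMod p) ℂ)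
  (Y : ℝ), (∀ a ∈ A, ∃ f ∈ F, a - f ∈ P) → (∀ b ∈ B, ∃ g ∈ G, b - g ∈ Q) →
  (∀ (A' B' : Finset (ZMod p)) (s : ZMod p) (α β : ZMod p → ℂ), A' ⊆ P → B' ⊆ Q → A'.card ≤ A.card →
    B'.card ≤ B.card → (∀ a, ‖α a‖ ≤ 1) → (∀ b, ‖β b‖ ≤ 1) →
      ‖∑ a ∈ A', ∑ b ∈ B', α a * β b * χ (a + b + s)‖ ≤ Y) →
  ∀ α β : ZMod p → ℂ, (∀ a, ‖α a‖ ≤ 1) → (∀ b, ‖β b‖ ≤ 1) →
    ‖∑ a ∈ A, ∑ b ∈ B, α a * β b * χ (a + b)‖ ≤ F.card * G.card * Y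

/-- FIN (medium; from FRE CO4 ZC PCS; the theorem).  `A` or `B` empty: trivial; so `H₁, H₂` are nonempty.  FRE for
`H₁` and for `H₂` with the same `K`: `d, C` (depending on `K` only), `P_i, F_i`, `|P_i 1| ≤ C |H_i| ≤ C p^(1-η)`.
ZC: `η', ζ_i`; `M = ⌊p^(1-η')⌋`.  CO4 with `η'` gives `δ₀` and the bound `Y = p^(-δ₀) ((p |A| |B|)^(1/2) + |A| |B|)`
for `A' ⊆ P_1 1`, `B' ⊆ P_2 1`, `|A'| ≤ |A|`, `|B'| ≤ |B|` (monotone).  PCS: the sum is at most `C^2 Y`, and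
`C^2 ≤ p^(δ₀/2)` for large `p`, `δ = δ₀/2`. -/
def FIN_stmt : Prop := ∀ (K η : ℝ), 0 < η → ∃ (δ : ℝ) (p₀ : ℕ), 0 < δ ∧ ∀ (p : ℕ) [Fact p.Prime],
  p₀ < p → ∀ H₁ H₂ A B : Finset (ZMod p), ((H₁ + H₁).card : ℝ) ≤ K * (H₁.card : ℝ) →
    ((H₂ + H₂).card : ℝ) ≤ K * (H₂.card : ℝ) → (H₁.card : ℝ) ≤ (p : ℝ) ^ (1 - η) →
    (H₂.card : ℝ) ≤ (p : ℝ) ^ (1 - η) → A ⊆ H₁ → B ⊆ H₂ →
    ∀ χ : MulChar (ZMod p) ℂ, χ ≠ 1 → ∀ α β : ZMod p → ℂ, (∀ a, ‖α a‖ ≤ 1) → (∀ b, ‖β b‖ ≤ 1) →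
      ‖∑ a ∈ A, ∑ b ∈ B, α a * β b * χ (a + b)‖ ≤
        (p : ℝ) ^ (-δ) * (Real.sqrt (p * (A.card * B.card)) + A.card * B.card)

/-- MOB (medium; from FIN; Moebius images; the hand-in).  Phases: `∑_z ‖∑_w β w χ(z+w)‖ = ∑_z ∑_w α z β w χ(z+w)`
with `‖α z‖ ≤ 1`.  Choose for `z ∈ A` an `x = f z ∈ H₁` with `c x + d ≠ 0`, `z = (a x + b)/(c x + d)`, for `w ∈ B` a
`y = g w ∈ H₂` with `c y + d ≠ 0`, `-w = (a y + b)/(c y + d)`; `f`, `g` are injective on `A`, `B`.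
`z + w = (a d - b c) (x - y) / ((c x + d) (c y + d))`, so
`χ(z+w) = χ(ad-bc) χ(x - y) conj χ(c x + d) conj χ(c y + d)` (`χ⁻¹`).  FIN for `A' = f A ⊆ H₁`,
`B' = {-g w} ⊆ -H₂` (`|-H₂ + -H₂| = |H₂ + H₂|`), with the weights multiplied by these values of modulus `≤ 1`. -/
def MOB_stmt : Prop := ∀ (K η : ℝ), 0 < η → ∃ (δ : ℝ) (p₀ : ℕ), 0 < δ ∧ ∀ (p : ℕ) [Fact p.Prime],
  p₀ < p → ∀ H₁ H₂ A B : Finset (ZMod p), ∀ a b c d : ZMod p, a * d - b * c ≠ 0 →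
    ((H₁ + H₁).card : ℝ) ≤ K * (H₁.card : ℝ) → ((H₂ + H₂).card : ℝ) ≤ K * (H₂.card : ℝ) →
    (H₁.card : ℝ) ≤ (p : ℝ) ^ (1 - η) → (H₂.card : ℝ) ≤ (p : ℝ) ^ (1 - η) →
    (∀ z ∈ A, ∃ x ∈ H₁, c * x + d ≠ 0 ∧ z = (a * x + b) / (c * x + d)) →
    (∀ w ∈ B, ∃ y ∈ H₂, c * y + d ≠ 0 ∧ -w = (a * y + b) / (c * y + d)) →
    ∀ χ : MulChar (ZMod p) ℂ, χ ≠ 1 → ∀ β : ZMod p → ℂ, (∀ w, ‖β w‖ ≤ 1) →
      ∑ z ∈ A, ‖∑ w ∈ B, β w * χ (z + w)‖ ≤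
        (p : ℝ) ^ (-δ) * (Real.sqrt (p * (A.card * B.card)) + A.card * B.card)

end Pool.Agent.SPI
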