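import Pool.Agent.helper47.SPI.Spec
import Pool.Agent.helper41.SPI.MOB
import Pool.Agent.helper78.SPI.FIN

/-!
# Project SPI (MP_f6e9a2_nt): sets covered by `p^δ` translates of thin sets of small doubling
-/

set_option autoImplicit false

namespace Pool.Agent.SPI

open Finset Pool.Agent.helper85.PG
open scoped Pointwise

/-- `A` is covered by at most `p^δ` translates of `H₁`, `B` by at most `p^δ` translates of `H₂` -/
def FIT_stmt : Prop := ∀ (K η : ℝ), 0 < η → ∃ (δ : ℝ) (p₀ : ℕ), 0 < δ ∧ ∀ (p : ℕ) [Fact p.Prime],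
  p₀ < p → ∀ H₁ H₂ X Y A B : Finset (ZMod p), ((H₁ + H₁).card : ℝ) ≤ K * (H₁.card : ℝ) →
    ((H₂ + H₂).card : ℝ) ≤ K * (H₂.card : ℝ) → (H₁.card : ℝ) ≤ (p : ℝ) ^ (1 - η) →
    (H₂.card : ℝ) ≤ (p : ℝ) ^ (1 - η) → (X.card : ℝ) ≤ (p : ℝ) ^ δ → (Y.card : ℝ) ≤ (p : ℝ) ^ δ →
    A ⊆ X + H₁ → B ⊆ Y + H₂ →
    ∀ χ : MulChar (ZMod p) ℂ, χ ≠ 1 → ∀ α β : ZMod p → ℂ, (∀ a, ‖α a‖ ≤ 1) → (∀ b, ‖β b‖ ≤ 1) →
      ‖∑ a ∈ A, ∑ b ∈ B, α a * β b * χ (a + b)‖ ≤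
        (p : ℝ) ^ (-δ) * (Real.sqrt (p * (A.card * B.card)) + A.card * B.card)

theorem FIT (hFRE : FRE_stmt) (hCO4 : CO4_stmt) (hZC : ZC_stmt) (hPCS : PCS_stmt) : FIT_stmt := by
  intro K η hη
  obtain ⟨d, C, hC1, hF⟩ := hFRE K
  obtain ⟨η', p₁, hη', hZ⟩ := hZC d C η hη
  obtain ⟨δ₀, p₂, hδ₀, hO⟩ := hCO4 η' hη'
  obtain ⟨p₃, hp₃⟩ := FIN_large (C ^ 2) (2 * (δ₀ / 5)) (by positivity)
  refine ⟨δ₀ / 5, max p₁ (max p₂ p₃), by positivity, ?_⟩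
  intro p _ hp H₁ H₂ X Y A B hH₁ hH₂ hc₁ hc₂ hXc hYc hA hB χ hχ α β hα hβ
  have hp1 : p₁ < p := lt_of_le_of_lt (le_max_left _ _) hp
  have hp2 : p₂ < p := lt_of_le_of_lt ((le_max_left _ _).trans (le_max_right _ _)) hp
  have hp3 : p₃ ≤ p := (lt_of_le_of_lt ((le_max_right _ _).trans (le_max_right _ _)) hp).le
  have hpp : (0 : ℝ) < p := by exact_mod_cast (Fact.out : p.Prime).pos
  have hR : (0 : ℝ) ≤ Real.sqrt (p * (A.card * B.card)) + A.card * B.card := by positivity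
  rcases A.eq_empty_or_nonempty with hAe | hAn
  · subst hAe
    rw [Finset.sum_empty, norm_zero]
    positivity
  rcases B.eq_empty_or_nonempty with hBe | hBn
  · subst hBe
    simp only [Finset.sum_empty, Finset.sum_const_zero, norm_zero]
    positivity
  have hH₁n : H₁.Nonempty := (hAn.mono hA).of_add_right
  have hH₂n : H₂.Nonempty := (hBn.mono hB).of_add_right
  obtain ⟨P₁, F₁, hs₁, hFc₁, hPc₁, hcov₁⟩ := hF p H₁ hH₁n hH₁
  obtain ⟨P₂, F₂, hs₂, hFc₂, hPc₂, hcov₂⟩ := hF p H₂ hH₂n hH₂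
  have hC0 : 0 ≤ C := by linarith
  obtain ⟨ζ₁, hζ₁, hz₁⟩ := hZ p hp1 P₁ hs₁ (hPc₁.trans (mul_le_mul_of_nonneg_left hc₁ hC0))
  obtain ⟨ζ₂, hζ₂, hz₂⟩ := hZ p hp1 P₂ hs₂ (hPc₂.trans (mul_le_mul_of_nonneg_left hc₂ hC0))
  set M : ℕ := ⌊(p : ℝ) ^ (1 - η')⌋₊ with hM
  have hMle : (M : ℝ) ≤ (p : ℝ) ^ (1 - η') := Nat.floor_le (by positivity)
  have hcov : ∀ (Z H F Q : Finset (ZMod p)), (∀ a ∈ H, ∃ f ∈ F, a - f ∈ Q) → ∀ a ∈ Z + H,
      ∃ f ∈ Z + F, a - f ∈ Q := by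
    intro Z H F Q h a ha
    obtain ⟨z, hz, y, hy, rfl⟩ := Finset.mem_add.1 ha
    obtain ⟨f, hf, hq⟩ := h y hy
    refine ⟨z + f, Finset.add_mem_add hz hf, ?_⟩
    have e : z + y - (z + f) = y - f := by ring
    rw [e]
    exact hq
  have hmain := hPCS p A B (X + F₁) (Y + F₂) (P₁ 1) (P₂ 1) χ
    ((p : ℝ) ^ (-δ₀) * (Real.sqrt (p * (A.card * B.card)) + A.card * B.card))
    (fun a ha => hcov X H₁ F₁ (P₁ 1) hcov₁ a (hA ha)) (fun b hb => hcov Y H₂ F₂ (P₂ 1) hcov₂ b (hB hb))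
    (fun A' B' s α' β' hA' hB' hcA hcB hα' hβ' => by
      have h1 := hO p hp2 A' B' s ζ₁ ζ₂ M χ α' β' hζ₁ hζ₂ hMle
        (fun a ha => Nat.le_floor (hz₁ a (hA' ha))) (fun b hb => Nat.le_floor (hz₂ b (hB' hb)))
        hχ hα' hβ'
      refine h1.trans (mul_le_mul_of_nonneg_left ?_ (by positivity))
      have hcA' : (A'.card : ℝ) ≤ A.card := by exact_mod_cast hcA
      have hcB' : (B'.card : ℝ) ≤ B.card := by exact_mod_cast hcB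
      have h2 : (A'.card : ℝ) * B'.card ≤ A.card * B.card :=
        mul_le_mul hcA' hcB' (by positivity) (by positivity)
      exact add_le_add (Real.sqrt_le_sqrt (mul_le_mul_of_nonneg_left h2 hpp.le)) h2)
    α β hα hβ
  refine hmain.trans ?_
  rw [← mul_assoc]
  refine mul_le_mul_of_nonneg_right ?_ hR
  have hc : ∀ (Z F : Finset (ZMod p)), (Z.card : ℝ) ≤ (p : ℝ) ^ (δ₀ / 5) → (F.card : ℝ) ≤ C →
      ((Z + F).card : ℝ) ≤ (p : ℝ) ^ (δ₀ / 5) * C := by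
    intro Z F hZ' hF'
    have h1 : ((Z + F).card : ℝ) ≤ (Z.card : ℝ) * F.card := by exact_mod_cast Finset.card_add_le
    exact h1.trans (mul_le_mul hZ' hF' (by positivity) (by positivity))
  have h3 : ((X + F₁).card : ℝ) * (Y + F₂).card ≤ (p : ℝ) ^ (4 * (δ₀ / 5)) := by
    calc ((X + F₁).card : ℝ) * (Y + F₂).card ≤ ((p : ℝ) ^ (δ₀ / 5) * C) * ((p : ℝ) ^ (δ₀ / 5) * C) :=
          mul_le_mul (hc _ _ hXc hFc₁) (hc _ _ hYc hFc₂) (by positivity) (by positivity)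
      _ = (p : ℝ) ^ (δ₀ / 5) * (p : ℝ) ^ (δ₀ / 5) * C ^ 2 := by ring
      _ ≤ (p : ℝ) ^ (δ₀ / 5) * (p : ℝ) ^ (δ₀ / 5) * (p : ℝ) ^ (2 * (δ₀ / 5)) :=
          mul_le_mul_of_nonneg_left (hp₃ p hp3) (by positivity)
      _ = _ := by
        rw [← Real.rpow_add hpp, ← Real.rpow_add hpp]
        congr 1
        ring
  calc ((X + F₁).card : ℝ) * (Y + F₂).card * (p : ℝ) ^ (-δ₀)
      ≤ (p : ℝ) ^ (4 * (δ₀ / 5)) * (p : ℝ) ^ (-δ₀) := mul_le_mul_of_nonneg_right h3 (by positivity)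
    _ = (p : ℝ) ^ (-(δ₀ / 5)) := by
      rw [← Real.rpow_add hpp]
      congr 1
      ring

/-- the Moebius form -/
def MOC_stmt : Prop := ∀ (K η : ℝ), 0 < η → ∃ (δ : ℝ) (p₀ : ℕ), 0 < δ ∧ ∀ (p : ℕ) [Fact p.Prime],
  p₀ < p → ∀ H₁ H₂ X Y A B : Finset (ZMod p), ∀ a b c d : ZMod p, a * d - b * c ≠ 0 →
    ((H₁ + H₁).card : ℝ) ≤ K * (H₁.card : ℝ) → ((H₂ + H₂).card : ℝ) ≤ K * (H₂.card : ℝ) →
    (H₁.card : ℝ) ≤ (p : ℝ) ^ (1 - η) → (H₂.card : ℝ) ≤ (p : ℝ) ^ (1 - η) →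
    (X.card : ℝ) ≤ (p : ℝ) ^ δ → (Y.card : ℝ) ≤ (p : ℝ) ^ δ →
    (∀ z ∈ A, ∃ x ∈ X + H₁, c * x + d ≠ 0 ∧ z = (a * x + b) / (c * x + d)) →
    (∀ w ∈ B, ∃ y ∈ Y + H₂, c * y + d ≠ 0 ∧ -w = (a * y + b) / (c * y + d)) →
    ∀ χ : MulChar (ZMod p) ℂ, χ ≠ 1 → ∀ β : ZMod p → ℂ, (∀ w, ‖β w‖ ≤ 1) →
      ∑ z ∈ A, ‖∑ w ∈ B, β w * χ (z + w)‖ ≤
        (p : ℝ) ^ (-δ) * (Real.sqrt (p * (A.card * B.card)) + A.card * B.card)

theorem MOC (hFIT : FIT_stmt) : MOC_stmt := by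
  intro K η hη
  obtain ⟨δ, p₀, hδ, hF⟩ := hFIT K η hη
  refine ⟨δ, p₀, hδ, ?_⟩
  intro p _ hp H₁ H₂ X Y A B a b c d hdet k1 k2 k3 k4 k5 k6 hA hB χ hχ β hβ
  -- phases
  choose α hα1 hα2 using fun z : ZMod p => MOB_phase (∑ w ∈ B, β w * χ (z + w))
  choose! f hf1 hf2 hf3 using hA
  choose! g hg1 hg2 hg3 using hB
  have hfi : Set.InjOn f (A : Set (ZMod p)) := by
    intro z hz z' hz' h
    rw [hf3 z hz, hf3 z' hz', h]
  have hgi : Set.InjOn (fun w => -g w) (B : Set (ZMod p)) := by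
    intro w hw w' hw' h
    have h1 : g w = g w' := neg_injective h
    apply neg_injective
    rw [hg3 w hw, hg3 w' hw', h1]
  -- the sets
  have hA' : A.image f ⊆ X + H₁ := by
    intro x hx
    obtain ⟨z, hz, rfl⟩ := mem_image.1 hx
    exact hf1 z hz
  have hB' : B.image (fun w => -g w) ⊆ (-Y) + (-H₂) := by
    intro y hy
    obtain ⟨w, hw, rfl⟩ := mem_image.1 hy
    have h1 := Finset.neg_mem_neg (hg1 w hw)
    rwa [neg_add] at h1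
  have hAc : (A.image f).card = A.card := card_image_of_injOn hfi
  have hBc : (B.image (fun w => -g w)).card = B.card := card_image_of_injOn hgi
  have hH2 : (((-H₂) + (-H₂)).card : ℝ) ≤ K * ((-H₂).card : ℝ) := by
    rw [← neg_add, Finset.card_neg, Finset.card_neg]
    exact k2
  have hH2' : ((-H₂).card : ℝ) ≤ (p : ℝ) ^ (1 - η) := by
    rw [Finset.card_neg]
    exact k4
  have hY' : ((-Y).card : ℝ) ≤ (p : ℝ) ^ δ := by
    rw [Finset.card_neg]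
    exact k6
  have hχ1 : ∀ x : ZMod p, ‖χ⁻¹ x‖ ≤ 1 := fun x => DirichletCharacter.norm_le_one χ⁻¹ x
  have main := hF p hp H₁ (-H₂) X (-Y) (A.image f) (B.image fun w => -g w) k1 hH2 k3 hH2' k5 hY' hA' hB' χ hχ
    (fun x => α ((a * x + b) / (c * x + d)) * χ⁻¹ (c * x + d))
    (fun y => β (-((a * (-y) + b) / (c * (-y) + d))) * χ⁻¹ (c * (-y) + d))
    (fun x => by
      rw [norm_mul]
      exact mul_le_one₀ (hα1 _) (norm_nonneg _) (hχ1 _))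
    (fun y => by
      rw [norm_mul]
      exact mul_le_one₀ (hβ _) (norm_nonneg _) (hχ1 _))
  rw [hAc, hBc] at main
  -- the sum
  have e1 : ((∑ z ∈ A, ‖∑ w ∈ B, β w * χ (z + w)‖ : ℝ) : ℂ) = χ (a * d - b * c) *
      ∑ x ∈ A.image f, ∑ y ∈ B.image (fun w => -g w),
        (fun x => α ((a * x + b) / (c * x + d)) * χ⁻¹ (c * x + d)) x *
        (fun y => β (-((a * (-y) + b) / (c * (-y) + d))) * χ⁻¹ (c * (-y) + d)) y * χ (x + y) := by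
    rw [sum_image hfi, Complex.ofReal_sum, mul_sum]
    refine sum_congr rfl fun z hz => ?_
    rw [sum_image hgi, ← hα2 z, mul_sum, mul_sum]
    refine sum_congr rfl fun w hw => ?_
    have hz' := hf3 z hz
    have hw' := hg3 w hw
    have e2 : z + w = (a * f z + b) / (c * f z + d) - (a * g w + b) / (c * g w + d) := by
      rw [← hz', ← hw']
      ring
    have e3 : χ (z + w) = χ (a * d - b * c) *
        (χ⁻¹ (c * f z + d) * χ⁻¹ (c * g w + d) * χ (f z - g w)) := by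
      rw [e2]
      exact MOB_id χ a b c d _ _ (hf2 z hz) (hg2 w hw)
    simp only [neg_neg]
    rw [← hz', ← hw', neg_neg, e3, ← sub_eq_add_neg]
    ring
  have e4 : (∑ z ∈ A, ‖∑ w ∈ B, β w * χ (z + w)‖ : ℝ) =
      ‖((∑ z ∈ A, ‖∑ w ∈ B, β w * χ (z + w)‖ : ℝ) : ℂ)‖ := by
    rw [Complex.norm_real, Real.norm_of_nonneg (sum_nonneg fun _ _ => norm_nonneg _)]
  rw [e4, e1, norm_mul]
  refine le_trans ?_ main
  exact mul_le_of_le_one_left (norm_nonneg _) (DirichletCharacter.norm_le_one χ _)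

end Pool.Agent.SPI
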