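import Pool.Agent.helper47.SPI.All
import Pool.Agent.helper47.SPI.MOC

/-!
# Project SPI (MP_f6e9a2_nt): assembly of the form with `p^δ` translates
-/

set_option autoImplicit false

namespace Pool.Agent.SPI

theorem p_FIT : FIT_stmt := FIT Pool.Agent.helper85.PG.fre (CO4 p_CO3) p_ZC PCS

theorem p_MOC : MOC_stmt := MOC p_FIT

end Pool.Agent.SPI
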