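import Pool.Agent.helper47.SPI.Spec
import Pool.Agent.helper41.SPI.MOB
import Pool.Agent.helper78.SPI.FIN

/-!
# Project SPI (MP_f6e9a2_nt): sets covered by `p^δ` progressions of length `p^(1-η)`
-/

set_option autoImplicit false

namespace Pool.Agent.SPI

open Finset Pool.Agent.helper85.PG
open scoped Pointwise

private theorem COV_small {p : ℕ} [Fact p.Prime] (v : ZMod p) (hv : v ≠ 0) (N : ℕ) :
    ∀ y ∈ (range N).image (fun n : ℕ => (n : ZMod p) * v), (v⁻¹ * y).valMinAbs.natAbs ≤ N := by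
  intro y hy
  obtain ⟨n, hn, rfl⟩ := mem_image.1 hy
  rw [mem_range] at hn
  have e : v⁻¹ * ((n : ZMod p) * v) = ((n : ℤ) : ZMod p) := by
    rw [mul_comm (n : ZMod p) v, ← mul_assoc, inv_mul_cancel₀ hv, one_mul, Int.cast_natCast]
  rw [e]
  have h := ZMod.natAbs_min_of_le_div_two p (((n : ℤ) : ZMod p).valMinAbs) (n : ℤ) (by
    rw [ZMod.coe_valMinAbs]) (ZMod.natAbs_valMinAbs_le _)
  rw [Int.natAbs_natCast] at h
  omega

theorem COV (hCO4 : CO4_stmt) (hPCS : PCS_stmt) (η : ℝ) (hη : 0 < η) :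
    ∃ (δ : ℝ) (p₀ : ℕ), 0 < δ ∧ ∀ (p : ℕ) [Fact p.Prime], p₀ < p →
      ∀ (A B X Y : Finset (ZMod p)) (v w : ZMod p) (N : ℕ), v ≠ 0 → w ≠ 0 →
        (N : ℝ) ≤ (p : ℝ) ^ (1 - η) → (X.card : ℝ) ≤ (p : ℝ) ^ δ → (Y.card : ℝ) ≤ (p : ℝ) ^ δ →
        (∀ a ∈ A, ∃ x ∈ X, ∃ n : ℕ, n < N ∧ a = x + (n : ZMod p) * v) →
        (∀ b ∈ B, ∃ y ∈ Y, ∃ n : ℕ, n < N ∧ b = y + (n : ZMod p) * w) →
        ∀ χ : MulChar (ZMod p) ℂ, χ ≠ 1 → ∀ β : ZMod p → ℂ, (∀ b, ‖β b‖ ≤ 1) →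
          ∑ a ∈ A, ‖∑ b ∈ B, β b * χ (a + b)‖ ≤
            (p : ℝ) ^ (-δ) * (Real.sqrt (p * (A.card * B.card)) + A.card * B.card) := by
  obtain ⟨δ₀, p₂, hδ₀, hO⟩ := hCO4 η hη
  refine ⟨δ₀ / 3, p₂, by positivity, ?_⟩
  intro p _ hp A B X Y v w N hv hw hN hX hY hA hB χ hχ β hβ
  have hpp : (0 : ℝ) < p := by exact_mod_cast (Fact.out : p.Prime).pos
  have hR : (0 : ℝ) ≤ Real.sqrt (p * (A.card * B.card)) + A.card * B.card := by positivity
  choose α hα1 hα2 using fun z : ZMod p => MOB_phase (∑ w ∈ B, β w * χ (z + w))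
  have hsum : ∑ a ∈ A, ‖∑ b ∈ B, β b * χ (a + b)‖ =
      ‖∑ a ∈ A, ∑ b ∈ B, α a * β b * χ (a + b)‖ := by
    have h1 : ((∑ a ∈ A, ‖∑ b ∈ B, β b * χ (a + b)‖ : ℝ) : ℂ) =
        ∑ a ∈ A, ∑ b ∈ B, α a * β b * χ (a + b) := by
      push_cast
      refine Finset.sum_congr rfl fun a _ => ?_
      rw [← hα2 a, Finset.mul_sum]
      refine Finset.sum_congr rfl fun b _ => ?_
      ring
    rw [← h1, Complex.norm_real, Real.norm_of_nonneg]
    exact Finset.sum_nonneg fun _ _ => norm_nonneg _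
  rw [hsum]
  have hmain := hPCS p A B X Y ((range N).image (fun n : ℕ => (n : ZMod p) * v))
    ((range N).image (fun n : ℕ => (n : ZMod p) * w)) χ
    ((p : ℝ) ^ (-δ₀) * (Real.sqrt (p * (A.card * B.card)) + A.card * B.card))
    (fun a ha => by
      obtain ⟨x, hx, n, hn, e⟩ := hA a ha
      refine ⟨x, hx, mem_image.2 ⟨n, mem_range.2 hn, ?_⟩⟩
      rw [e]; ring)
    (fun b hb => by
      obtain ⟨y, hy, n, hn, e⟩ := hB b hb
      refine ⟨y, hy, mem_image.2 ⟨n, mem_range.2 hn, ?_⟩⟩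
      rw [e]; ring)
    (fun A' B' s α' β' hA' hB' hcA hcB hα' hβ' => by
      have h1 := hO p hp A' B' s v⁻¹ w⁻¹ N χ α' β' (inv_ne_zero hv) (inv_ne_zero hw) hN
        (fun a ha => COV_small v hv N a (hA' ha)) (fun b hb => COV_small w hw N b (hB' hb))
        hχ hα' hβ'
      refine h1.trans (mul_le_mul_of_nonneg_left ?_ (by positivity))
      have hcA' : (A'.card : ℝ) ≤ A.card := by exact_mod_cast hcA
      have hcB' : (B'.card : ℝ) ≤ B.card := by exact_mod_cast hcB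
      have h2 : (A'.card : ℝ) * B'.card ≤ A.card * B.card :=
        mul_le_mul hcA' hcB' (by positivity) (by positivity)
      exact add_le_add (Real.sqrt_le_sqrt (mul_le_mul_of_nonneg_left h2 hpp.le)) h2)
    α β hα1 hβ
  refine hmain.trans ?_
  rw [← mul_assoc]
  refine mul_le_mul_of_nonneg_right ?_ hR
  calc (X.card : ℝ) * Y.card * (p : ℝ) ^ (-δ₀)
      ≤ (p : ℝ) ^ (δ₀ / 3) * (p : ℝ) ^ (δ₀ / 3) * (p : ℝ) ^ (-δ₀) := by gcongr
    _ = (p : ℝ) ^ (-(δ₀ / 3)) := by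
      rw [← Real.rpow_add hpp, ← Real.rpow_add hpp]
      congr 1
      ring

end Pool.Agent.SPI
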