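import Pool.Agent.helper47.SPI.Spec

/-!
# Project SPI (MP_f6e9a2_nt), row ZC: a system of small size lies in a dilate of a short interval
-/

set_option autoImplicit false

namespace Pool.Agent.SPI

open Finset Pool.Agent.helper85.PG

private theorem ZC_ev (d : ℕ) (C η₁ θ : ℝ) (hη₁ : 0 < η₁) (hθ : 0 < θ) :
    ∃ N : ℝ, ∀ x : ℝ, N ≤ x → 2 ≤ x ^ θ ∧ 2 * 5 ^ d * |C| ≤ x ^ (η₁ / 2) ∧ Real.log x ≤ x ^ θ ∧
      2 * 5 ^ d * Real.log x ≤ x ^ (θ / 2) := by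
  have h1 : ∀ᶠ x : ℝ in Filter.atTop, 2 ≤ x ^ θ :=
    (tendsto_rpow_atTop hθ).eventually_ge_atTop 2
  have h2 : ∀ᶠ x : ℝ in Filter.atTop, 2 * 5 ^ d * |C| ≤ x ^ (η₁ / 2) :=
    (tendsto_rpow_atTop (half_pos hη₁)).eventually_ge_atTop _
  have h3 : ∀ᶠ x : ℝ in Filter.atTop, 2 * 5 ^ d * Real.log x ≤ x ^ (θ / 2) := by
    have hc : (0 : ℝ) < (2 * 5 ^ d)⁻¹ := by positivity
    filter_upwards [(isLittleO_log_rpow_atTop (half_pos hθ)).bound hc, Filter.eventually_ge_atTop (1 : ℝ)]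
      with x hx hx1
    rw [Real.norm_of_nonneg (Real.log_nonneg hx1),
      Real.norm_of_nonneg (Real.rpow_nonneg (by linarith) _)] at hx
    calc 2 * 5 ^ d * Real.log x ≤ 2 * 5 ^ d * ((2 * 5 ^ d)⁻¹ * x ^ (θ / 2)) := by gcongr
      _ = x ^ (θ / 2) := by field_simp
  have h4 : ∀ᶠ x : ℝ in Filter.atTop, Real.log x ≤ x ^ θ := by
    filter_upwards [(isLittleO_log_rpow_atTop hθ).bound one_pos, Filter.eventually_ge_atTop (1 : ℝ)]
      with x hx hx1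
    rw [Real.norm_of_nonneg (Real.log_nonneg hx1),
      Real.norm_of_nonneg (Real.rpow_nonneg (by linarith) _), one_mul] at hx
    exact hx
  obtain ⟨N, hN⟩ := Filter.eventually_atTop.1 (h1.and (h2.and (h4.and h3)))
  exact ⟨N, fun x hx => ⟨(hN x hx).1, (hN x hx).2.1, (hN x hx).2.2.1, (hN x hx).2.2.2⟩⟩

private theorem ZC_sum {p d : ℕ} [Fact p.Prime] {P : ℝ → Finset (ZMod p)} (hP : IsSys p d P) :
    ∀ (n : ℕ) (f : Fin n → ZMod p), (∀ i, f i ∈ P 2) → ∑ i, f i ∈ P (2 * (n : ℝ)) := by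
  intro n
  induction n with
  | zero =>
    intro f _
    rw [Fin.sum_univ_zero]
    exact hP.zero_mem (by simp)
  | succ n ih =>
    intro f hf
    rw [Fin.sum_univ_succ]
    have h := hP.add_mem (hf 0) (ih (fun i => f i.succ) fun i => hf _)
    have e : (2 : ℝ) + 2 * (n : ℝ) = 2 * ((n + 1 : ℕ) : ℝ) := by push_cast; ring
    rwa [e] at h

theorem ZC (hZA : ZA_stmt) (hZB : ZB_stmt) (hPKC : PKC_stmt) : ZC_stmt := by
  intro d C η hη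
  obtain ⟨η₁, hη₁⟩ : ∃ η₁ : ℝ, η₁ = min η 1 := ⟨_, rfl⟩
  have hη₁0 : 0 < η₁ := by rw [hη₁]; exact lt_min hη one_pos
  have hη₁η : η₁ ≤ η := by rw [hη₁]; exact min_le_left _ _
  obtain ⟨θ, hθ⟩ : ∃ θ : ℝ, θ = η₁ / (2 * (d + 1)) := ⟨_, rfl⟩
  have hd : (0 : ℝ) < (d : ℝ) + 1 := by positivity
  have hθ0 : 0 < θ := by rw [hθ]; positivity
  have hθd : θ * d ≤ η₁ / 2 := by
    have e : η₁ / 2 = θ * (d + 1) := by rw [hθ]; field_simp
    rw [e]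
    nlinarith
  obtain ⟨N, hN⟩ := ZC_ev d C η₁ θ hη₁0 hθ0
  refine ⟨θ / 4, max ⌈N⌉₊ 3, by positivity, ?_⟩
  intro p _ hp P hP hcard
  have hpN : N ≤ (p : ℝ) := (Nat.le_ceil N).trans (by exact_mod_cast ((le_max_left _ _).trans hp.le))
  have hp3 : 3 < p := lt_of_le_of_lt (le_max_right _ _) hp
  have hp1 : (1 : ℝ) ≤ (p : ℝ) := by exact_mod_cast (by omega : 1 ≤ p)
  have hp0 : (0 : ℝ) < (p : ℝ) := by linarith
  obtain ⟨e1, e2, e3, e4⟩ := hN _ hpN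
  obtain ⟨k, hk⟩ : ∃ k : ℕ, k = ⌊(p : ℝ) ^ θ⌋₊ := ⟨_, rfl⟩
  have hkle : (k : ℝ) ≤ (p : ℝ) ^ θ := by rw [hk]; exact Nat.floor_le (by positivity)
  have hkge : (p : ℝ) ^ θ / 2 ≤ (k : ℝ) := by
    have := Nat.lt_floor_add_one ((p : ℝ) ^ θ)
    rw [← hk] at this
    linarith
  have hk1r : (1 : ℝ) ≤ (k : ℝ) := by linarith
  have hk1 : 0 < k := by
    have : (0 : ℝ) < (k : ℝ) := by linarith
    exact_mod_cast this
  have hk0 : (0 : ℝ) < (k : ℝ) := by linarith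
  -- size of U
  have hU : 2 * (P (2 * (k : ℝ))).card ≤ p := by
    have h1 := (hPKC.2.2 p d P hP (2 * (k : ℝ)) 1 (by positivity) one_pos).1
    have h2 : (1 + 2 * (2 * (k : ℝ)) / 1) ^ d ≤ (5 * (p : ℝ) ^ θ) ^ d := by
      apply pow_le_pow_left₀ (by positivity)
      rw [div_one]
      nlinarith
    have h3 : (5 * (p : ℝ) ^ θ) ^ d = 5 ^ d * (p : ℝ) ^ (θ * d) := by
      rw [mul_pow, ← Real.rpow_natCast ((p : ℝ) ^ θ) d, ← Real.rpow_mul hp0.le]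
    have h4 : (p : ℝ) ^ (θ * d) ≤ (p : ℝ) ^ (η₁ / 2) := Real.rpow_le_rpow_of_exponent_le hp1 hθd
    have h5 : ((P 1).card : ℝ) ≤ |C| * (p : ℝ) ^ (1 - η₁) := by
      refine hcard.trans ?_
      calc C * (p : ℝ) ^ (1 - η) ≤ |C| * (p : ℝ) ^ (1 - η) := by
            gcongr
            exact le_abs_self C
        _ ≤ |C| * (p : ℝ) ^ (1 - η₁) := by
            have : (p : ℝ) ^ (1 - η) ≤ (p : ℝ) ^ (1 - η₁) :=
              Real.rpow_le_rpow_of_exponent_le hp1 (by linarith)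
            gcongr
    have h6 : ((P (2 * (k : ℝ))).card : ℝ) ≤
        5 ^ d * (p : ℝ) ^ (η₁ / 2) * (|C| * (p : ℝ) ^ (1 - η₁)) := by
      refine h1.trans (mul_le_mul ?_ h5 (by positivity) (by positivity))
      rw [h3] at h2
      exact h2.trans (by gcongr)
    have h7 : 2 * ((P (2 * (k : ℝ))).card : ℝ) ≤ (p : ℝ) := by
      calc 2 * ((P (2 * (k : ℝ))).card : ℝ)
          ≤ 2 * (5 ^ d * (p : ℝ) ^ (η₁ / 2) * (|C| * (p : ℝ) ^ (1 - η₁))) := by gcongr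
        _ = (2 * 5 ^ d * |C|) * ((p : ℝ) ^ (η₁ / 2) * (p : ℝ) ^ (1 - η₁)) := by ring
        _ ≤ (p : ℝ) ^ (η₁ / 2) * ((p : ℝ) ^ (η₁ / 2) * (p : ℝ) ^ (1 - η₁)) := by gcongr
        _ = (p : ℝ) := by
            rw [← Real.rpow_add hp0, ← Real.rpow_add hp0]
            have : η₁ / 2 + (η₁ / 2 + (1 - η₁)) = 1 := by ring
            rw [this, Real.rpow_one]
    exact_mod_cast h7
  obtain ⟨t, ht0, ht⟩ := hZA p (P 2) (P (2 * (k : ℝ))) k hk1 ⟨0, hP.zero_mem (by norm_num)⟩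
    (fun f hf => ZC_sum hP k f hf) hU
  -- tau
  obtain ⟨τ, hτ⟩ : ∃ τ : ℝ, τ = Real.log p / (2 * k) := ⟨_, rfl⟩
  have hlog : 0 ≤ Real.log p := Real.log_nonneg hp1
  have hτ0 : 0 ≤ τ := by rw [hτ]; positivity
  have hpθ : (0 : ℝ) < (p : ℝ) ^ θ := by positivity
  have hτle : τ ≤ Real.log p / (p : ℝ) ^ θ := by
    rw [hτ]
    apply div_le_div_of_nonneg_left hlog hpθ
    linarith
  have hτ1 : τ ≤ 1 := hτle.trans ((div_le_one hpθ).2 e3)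
  have hlarge : (1 - τ) * ((P 2).card : ℝ) ≤ ‖∑ y ∈ P 2, (ZMod.stdAddChar (t * y) : ℂ)‖ := by
    have h1 : Real.exp (-τ) * ((P 2).card : ℝ) ≤ ‖∑ y ∈ P 2, (ZMod.stdAddChar (t * y) : ℂ)‖ := by
      have h2k : 2 * k ≠ 0 := by omega
      apply (pow_le_pow_iff_left₀ (by positivity) (norm_nonneg _) h2k).1
      rw [mul_pow, ← Real.exp_nat_mul]
      have h3 : ((2 * k : ℕ) : ℝ) * -τ = -Real.log p := by
        rw [hτ]
        push_cast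
        field_simp
      rw [h3, Real.exp_neg, Real.exp_log hp0]
      rw [inv_mul_le_iff₀ hp0]
      exact ht
    refine le_trans ?_ h1
    have h2 : 1 - τ ≤ Real.exp (-τ) := by
      have := Real.add_one_le_exp (-τ)
      linarith
    gcongr
  obtain ⟨ζ, hζ0, hζ⟩ := hZB p d P τ t (by omega) hP hτ0 hτ1 ht0 hlarge
  refine ⟨ζ, hζ0, fun y hy => (hζ y hy).trans ?_⟩
  have h1 : Real.sqrt (2 * 5 ^ d * τ) ≤ (p : ℝ) ^ (-(θ / 4)) := by
    apply Real.sqrt_le_iff.2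
    refine ⟨by positivity, ?_⟩
    have h2 : ((p : ℝ) ^ (-(θ / 4))) ^ 2 = (p : ℝ) ^ (-(θ / 2)) := by
      rw [← Real.rpow_natCast ((p : ℝ) ^ (-(θ / 4))) 2, ← Real.rpow_mul hp0.le]
      congr 1
      push_cast
      ring
    rw [h2]
    calc 2 * 5 ^ d * τ ≤ 2 * 5 ^ d * (Real.log p / (p : ℝ) ^ θ) := by gcongr
      _ = (2 * 5 ^ d * Real.log p) / (p : ℝ) ^ θ := by ring
      _ ≤ (p : ℝ) ^ (θ / 2) / (p : ℝ) ^ θ := by gcongr
      _ = (p : ℝ) ^ (-(θ / 2)) := by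
          rw [← Real.rpow_sub hp0]
          congr 1
          ring
  calc (p : ℝ) * Real.sqrt (2 * 5 ^ d * τ) ≤ p * (p : ℝ) ^ (-(θ / 4)) := by gcongr
    _ = (p : ℝ) ^ (1 - θ / 4) := by
        rw [sub_eq_add_neg, Real.rpow_add hp0, Real.rpow_one]

end Pool.Agent.SPI
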