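import Pool.Agent.helper47.SPI.Spec
import Pool.Agent.helper85.PG.Final
import Pool.Agent.helper92.PY2.HOL
import Pool.Agent.helper79.PY2.DIV
import Pool.Agent.helper48.SPI.GSI
import Pool.Agent.helper98.SPI.PLN
import Pool.Agent.helper55.SPI.SMO
import Pool.Agent.helper74.SPI.AV2
import Pool.Agent.helper68.SPI.SCM
import Pool.Agent.helper64.SPI.QRR
import Pool.Agent.helper9.SPI.RRB
import Pool.Agent.helper31.SPI.GBS
import Pool.Agent.helper54.SPI.SHG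
import Pool.Agent.helper17.SPI.PRM
import Pool.Agent.helper29.SPI.NUM
import Pool.Agent.helper50.SPI.CEL
import Pool.Agent.helper99.SPI.NUS
import Pool.Agent.helper90.SPI.BDS
import Pool.Agent.helper71.SPI.CO3
import Pool.Agent.helper97.SPI.CO4
import Pool.Agent.helper63.SPI.ZA
import Pool.Agent.helper63.SPI.ZB
import Pool.Agent.helper47.SPI.ZC
import Pool.Agent.helper83.SPI.PCS
import Pool.Agent.helper78.SPI.FIN
import Pool.Agent.helper41.SPI.MOB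
import Pool.Agent.helper47.SPI.COV

/-!
# Project SPI (MP_f6e9a2_nt): assembly
-/

set_option autoImplicit false

namespace Pool.Agent.SPI

open Finset Pool.Agent.helper85.PG
open scoped Pointwise

theorem p_HOL : HOL_stmt := fun p _ f g k hk hf hg => Pool.Agent.PY2.HOL p f g k hk hf hg

theorem p_DIV : DIV_stmt := fun η hη => Pool.Agent.PY2.DIV η hη

theorem p_BDS : BDS_stmt := BDS SHG PRM NUM p_HOL p_DIV CEL NUS

theorem p_CO3 : CO3_stmt := CO3 GSI PLN (SMO PLN) AV2 (GBS (QRR SCM) RRB PLN) p_BDS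

theorem p_ZC : ZC_stmt := ZC (ZA PLN) (ZB Pool.Agent.helper85.PG.pkc) Pool.Agent.helper85.PG.pkc

theorem p_FIN : FIN_stmt := FIN Pool.Agent.helper85.PG.fre (CO4 p_CO3) p_ZC PCS

theorem p_MOB : MOB_stmt := MOB p_FIN

theorem p_COV (η : ℝ) (hη : 0 < η) :
    ∃ (δ : ℝ) (p₀ : ℕ), 0 < δ ∧ ∀ (p : ℕ) [Fact p.Prime], p₀ < p →
      ∀ (A B X Y : Finset (ZMod p)) (v w : ZMod p) (N : ℕ), v ≠ 0 → w ≠ 0 →
        (N : ℝ) ≤ (p : ℝ) ^ (1 - η) → (X.card : ℝ) ≤ (p : ℝ) ^ δ → (Y.card : ℝ) ≤ (p : ℝ) ^ δ →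
        (∀ a ∈ A, ∃ x ∈ X, ∃ n : ℕ, n < N ∧ a = x + (n : ZMod p) * v) →
        (∀ b ∈ B, ∃ y ∈ Y, ∃ n : ℕ, n < N ∧ b = y + (n : ZMod p) * w) →
        ∀ χ : MulChar (ZMod p) ℂ, χ ≠ 1 → ∀ β : ZMod p → ℂ, (∀ b, ‖β b‖ ≤ 1) →
          ∑ a ∈ A, ‖∑ b ∈ B, β b * χ (a + b)‖ ≤
            (p : ℝ) ^ (-δ) * (Real.sqrt (p * (A.card * B.card)) + A.card * B.card) :=
  COV (CO4 p_CO3) PCS η hη

end Pool.Agent.SPI
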